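import Pool.Agent.Helper737.AmpleCore
import Pool.Agent.Helper737.AmpleA
import Pool.Agent.Helper737.AmpleB

namespace Pool.Agent.Results.MP_0a37ce_al.WeaklyNotVirtuallyAmple

open Pool.Agent.Helper737.Ample

/-- There is a field which is weakly ample but not virtually ample. -/
theorem result : ∃ (K : Type) (_ : Field K), IsWeaklyAmple K ∧ ¬ IsVirtuallyAmple K := by
  haveI : Uncountable ℂ := Cardinal.aleph0_lt_mk_iff.1 (by
    rw [Cardinal.mk_complex]; exact Cardinal.aleph0_lt_continuum)
  obtain ⟨K, hx, hH, hM⟩ := core (Ω := ℂ)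
  refine ⟨K, inferInstance, isWeaklyAmple_of_tuples ℂ hx hH, ?_⟩
  rintro ⟨L, _, _, hfin, hL⟩
  haveI := hfin
  haveI : CharZero L := charZero_of_injective_algebraMap (algebraMap K L).injective
  obtain ⟨u, hu, hfinite⟩ := hM L
  exact not_isAmple_of_quartic u hu hfinite hL

end Pool.Agent.Results.MP_0a37ce_al.WeaklyNotVirtuallyAmple
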